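import Mathlib

set_option autoImplicit false

open Set Ordinal Order Cardinal

namespace Pool.Agent.R591.PF

/-- `U` is uniformizable on `J`: every choice of subsets of the sets `U i` (`i ∈ J`) is induced,
up to finite sets, by a single set. -/
def Unif {ι : Type*} {T : Type*} (J : Set ι) (U : ι → Set T) : Prop :=
  ∀ V : ι → Set T, ∃ Y : Set T, ∀ i ∈ J, {t ∈ U i | ¬ (t ∈ Y ↔ t ∈ V i)}.Finite

/-- The set of countable limit ordinals. -/
def LimSet : Set Ordinal.{0} := {δ | δ < ω₁ ∧ IsSuccLimit δ}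

/-- `S` is a ladder on the limit ordinal `δ`: a cofinal subset of `δ` of order type `ω`. -/
def IsLadder (S : Set Ordinal.{0}) (δ : Ordinal.{0}) : Prop :=
  S ⊆ Iio δ ∧ (∀ β < δ, ∃ ξ ∈ S, β < ξ) ∧ ∀ β < δ, (S ∩ Iio β).Finite

lemma unif_of_disjoint {ι T : Type*} (J : Set ι) (U : ι → Set T)
    (h : ∀ i ∈ J, ∀ j ∈ J, i ≠ j → Disjoint (U i) (U j)) : Unif J U := by
  intro V
  refine ⟨⋃ i ∈ J, (V i ∩ U i), fun i hi => ?_⟩
  convert Set.finite_empty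
  ext t
  simp only [mem_setOf_eq, mem_empty_iff_false, iff_false, not_and, not_not]
  intro ht
  constructor
  · intro h'
    simp only [mem_iUnion, exists_prop] at h'
    obtain ⟨j, hj, hj1, hj2⟩ := h'
    by_cases hij : i = j
    · subst hij; exact hj1
    · exact absurd hj2 (fun h2 => (Set.disjoint_left.1 (h i hi j hj hij)) ht h2)
  · intro h'
    simp only [mem_iUnion, exists_prop]
    exact ⟨i, hi, h', ht⟩

lemma unif_sum {ι T₁ T₂ : Type*} [DecidableEq ι] (J₁ J₂ : Set ι) [DecidablePred (· ∈ J₁)]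
    (U₁ : ι → Set T₁) (U₂ : ι → Set T₂)
    (h₁ : Unif J₁ U₁) (h₂ : Unif J₂ U₂) :
    Unif (J₁ ∪ J₂) (fun i => if i ∈ J₁ then Sum.inl '' U₁ i else Sum.inr '' U₂ i :
      ι → Set (T₁ ⊕ T₂)) := by
  intro V
  obtain ⟨Y₁, hY₁⟩ := h₁ (fun i => Sum.inl ⁻¹' V i)
  obtain ⟨Y₂, hY₂⟩ := h₂ (fun i => Sum.inr ⁻¹' V i)
  refine ⟨Sum.inl '' Y₁ ∪ Sum.inr '' Y₂, fun i hi => ?_⟩
  by_cases hi1 : i ∈ J₁
  · refine ((hY₁ i hi1).image Sum.inl).subset ?_
    rintro t ⟨ht, ht2⟩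
    simp only [hi1, if_true] at ht
    obtain ⟨u, hu, rfl⟩ := ht
    refine ⟨u, ⟨hu, ?_⟩, rfl⟩
    simpa using ht2
  · have hi2 : i ∈ J₂ := hi.resolve_left hi1
    refine ((hY₂ i hi2).image Sum.inr).subset ?_
    rintro t ⟨ht, ht2⟩
    simp only [hi1, if_false] at ht
    obtain ⟨u, hu, rfl⟩ := ht
    refine ⟨u, ⟨hu, ?_⟩, rfl⟩
    simpa using ht2

lemma exists_seq {δ : Ordinal.{0}} (P : ℕ → Ordinal.{0} → Prop) (f : ℕ → Ordinal.{0})
    (hf : ∀ k, f k < δ) (hP : ∀ k, ∀ β < δ, ∃ ξ, β < ξ ∧ ξ < δ ∧ P k ξ) :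
    ∃ c : ℕ → Ordinal.{0}, StrictMono c ∧ ∀ k, c k < δ ∧ f k < c k ∧ P k (c k) := by
  choose F hF1 hF2 hF3 using hP
  let c : ℕ → {ξ // ξ < δ} := fun k => Nat.rec ⟨F 0 (f 0) (hf 0), hF2 _ _ _⟩
    (fun k x => ⟨F (k+1) (max x.1 (f (k+1))) (max_lt x.2 (hf _)), hF2 _ _ _⟩) k
  refine ⟨fun k => (c k).1, strictMono_nat_of_lt_succ fun k => ?_, fun k => ⟨(c k).2, ?_, ?_⟩⟩
  · exact (le_max_left _ _).trans_lt (hF1 (k+1) (max (c k).1 (f (k+1))) (max_lt (c k).2 (hf _)))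
  · cases k with
    | zero => exact hF1 _ _ _
    | succ k =>
      exact (le_max_right _ _).trans_lt
        (hF1 (k+1) (max (c k).1 (f (k+1))) (max_lt (c k).2 (hf _)))
  · cases k with
    | zero => exact hF3 _ _ _
    | succ k => exact hF3 (k+1) (max (c k).1 (f (k+1))) (max_lt (c k).2 (hf _))

lemma add_nat_lt {δ a : Ordinal.{0}} (hδ : IsSuccLimit δ) (ha : a < δ) (n : ℕ) :
    a + n < δ := by
  induction n with
  | zero => simpa using ha
  | succ n ih =>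
    have := hδ.succ_lt ih
    rwa [Nat.cast_succ, ← add_assoc, ← succ_eq_add_one]

lemma countable_Iio {δ : Ordinal.{0}} (h : δ < ω₁) : (Iio δ).Countable := by
  rw [← le_aleph0_iff_set_countable, Cardinal.mk_Iio_ordinal, Cardinal.lift_le_aleph0]
  have : δ.card < ℵ₁ := by
    rw [← Cardinal.lt_ord]
    simpa using h
  exact Cardinal.lt_aleph_one_iff.1 this

lemma exists_book {T : Type} [Nonempty T] (h : T → Ordinal.{0})
    (hc : ∀ δ < ω₁, {t | h t < δ}.Countable) :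
    ∃ g : Ordinal.{0} → T, ∀ δ ∈ LimSet, ∀ t, h t < δ → ∀ β < δ,
      ∃ ξ, β < ξ ∧ ξ < δ ∧ g ξ = t := by
  have h1 : ∀ η : Ordinal.{0}, ∃ e : ℕ → T, {t | h t < ω * η + ω}.Countable →
      {t | h t < ω * η + ω} ⊆ range e := by
    intro η
    by_cases hc1 : {t | h t < ω * η + ω}.Countable
    · by_cases hne : {t | h t < ω * η + ω}.Nonempty
      · obtain ⟨e, he⟩ := hc1.exists_eq_range hne
        exact ⟨e, fun _ => he.subset⟩
      · refine ⟨fun _ => Classical.arbitrary T, fun _ t ht => (hne ⟨t, ht⟩).elim⟩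
    · exact ⟨fun _ => Classical.arbitrary T, fun h => (hc1 h).elim⟩
  choose e he using h1
  have h2 : ∀ ξ : Ordinal.{0}, ∃ m : ℕ, ξ % ω = m := fun ξ =>
    lt_omega0.1 (mod_lt ξ omega0_ne_zero)
  choose m hm using h2
  refine ⟨fun ξ => e (ξ / ω) (Nat.unpair (m ξ)).1, ?_⟩
  rintro δ ⟨hδ1, hδ2⟩ t ht β hβ
  set β' := max β (h t) with hβ'
  have hβ'δ : β' < δ := max_lt hβ ht
  set η := β' / ω with hη
  have h3 : ω * η + (m β' : Ordinal) = β' := by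
    rw [← hm β', hη]; exact div_add_mod _ _
  have h4 : ω * η < δ := (mul_div_le _ _).trans_lt hβ'δ
  have h5 : ω * η + ω ≤ δ := by
    rw [add_le_iff_of_isSuccLimit isSuccLimit_omega0]
    intro b hb
    obtain ⟨n, rfl⟩ := lt_omega0.1 hb
    exact (add_nat_lt hδ2 h4 n).le
  have h6 : β' < ω * η + ω := by
    rw [← h3]
    exact (add_lt_add_iff_left _).2 (natCast_lt_omega0 _)
  obtain ⟨n, hn⟩ := he η (hc _ ((h5.trans_lt hδ1))) (show h t < ω * η + ω from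
    (le_max_right _ _).trans_lt h6)
  refine ⟨ω * η + ((Nat.pair n (m β' + 1) : ℕ) : Ordinal), ?_, add_nat_lt hδ2 h4 _, ?_⟩
  · refine (le_max_left β (h t)).trans_lt ?_
    rw [← hβ', ← h3]
    refine (add_lt_add_iff_left _).2 ?_
    rw [h3]
    exact_mod_cast (Nat.lt_succ_self _).trans_le (Nat.right_le_pair _ _)
  · have h7 : (ω * η + ((Nat.pair n (m β' + 1) : ℕ) : Ordinal)) / ω = η := by
      rw [mul_add_div _ omega0_ne_zero, div_eq_zero_of_lt (natCast_lt_omega0 _), add_zero]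
    have h8 : m (ω * η + ((Nat.pair n (m β' + 1) : ℕ) : Ordinal)) = Nat.pair n (m β' + 1) := by
      have := hm (ω * η + ((Nat.pair n (m β' + 1) : ℕ) : Ordinal))
      rw [mul_add_mod_self, mod_eq_of_lt (natCast_lt_omega0 _)] at this
      exact_mod_cast this.symm
    show e ((ω * η + ((Nat.pair n (m β' + 1) : ℕ) : Ordinal)) / ω) _ = t
    rw [h7, h8, Nat.unpair_pair]
    exact hn

/-- A uniformizable family of infinite sets `U δ ⊆ {h < δ}` yields a uniformizable ladder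
system. -/
theorem ladder_of_unif {T : Type} (h : T → Ordinal.{0})
    (hc : ∀ δ < ω₁, {t | h t < δ}.Countable) (J : Set Ordinal.{0}) (hJ : J ⊆ LimSet)
    (U : Ordinal.{0} → Set T)
    (hU : ∀ δ ∈ J, (U δ).Infinite ∧ ∀ t ∈ U δ, h t < δ) (hunif : Unif J U) :
    ∃ C : Ordinal.{0} → Set Ordinal.{0}, (∀ δ ∈ J, IsLadder (C δ) δ) ∧ Unif J C := by
  rcases J.eq_empty_or_nonempty with rfl | ⟨δ₀, hδ₀⟩
  · exact ⟨fun _ => ∅, fun δ hδ => hδ.elim, fun V => ⟨∅, fun δ hδ => hδ.elim⟩⟩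
  obtain ⟨t0, -⟩ := (hU _ hδ₀).1.nonempty
  have : Nonempty T := ⟨t0⟩
  obtain ⟨g, hg⟩ := exists_book h hc
  have key : ∀ δ : Ordinal.{0}, ∃ S : Set Ordinal.{0}, δ ∈ J →
      IsLadder S δ ∧ InjOn g S ∧ MapsTo g S (U δ) := by
    intro δ
    by_cases hδ : δ ∈ J
    · obtain ⟨f, hf⟩ := (countable_Iio (hJ hδ).1).exists_eq_range
        ⟨0, (hJ hδ).2.bot_lt⟩
      let a := (hU δ hδ).1.natEmbedding
      obtain ⟨c, hc1, hc2⟩ := exists_seq (δ := δ) (fun k ξ => g ξ = (a k : T)) f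
        (fun k => by
          have : f k ∈ Iio δ := by rw [hf]; exact mem_range_self k
          exact this)
        (fun k β hβ => hg δ (hJ hδ) _ ((hU δ hδ).2 _ (a k).2) β hβ)
      refine ⟨range c, fun _ => ⟨⟨?_, ?_, ?_⟩, ?_, ?_⟩⟩
      · rintro _ ⟨k, rfl⟩; exact (hc2 k).1
      · intro β hβ
        obtain ⟨k, rfl⟩ : β ∈ range f := by rw [← hf]; exact hβ
        exact ⟨c k, mem_range_self k, (hc2 k).2.1⟩
      · intro β hβ
        obtain ⟨k, rfl⟩ : β ∈ range f := by rw [← hf]; exact hβ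
        refine ((finite_Iio k).image c).subset ?_
        rintro _ ⟨⟨j, rfl⟩, hj⟩
        refine ⟨j, ?_, rfl⟩
        have h1 : c j < c k := lt_trans hj (hc2 k).2.1
        exact hc1.lt_iff_lt.1 h1
      · rintro _ ⟨k, rfl⟩ _ ⟨j, rfl⟩ hkj
        rw [(hc2 k).2.2, (hc2 j).2.2] at hkj
        have := a.injective (Subtype.ext hkj)
        rw [this]
      · rintro _ ⟨k, rfl⟩
        rw [(hc2 k).2.2]
        exact (a k).2
    · exact ⟨∅, fun h => (hδ h).elim⟩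
  choose C hC using key
  refine ⟨C, fun δ hδ => (hC δ hδ).1, fun V => ?_⟩
  obtain ⟨Y, hY⟩ := hunif (fun δ => g '' (V δ ∩ C δ))
  refine ⟨g ⁻¹' Y, fun δ hδ => ?_⟩
  refine Set.Finite.of_injOn (f := g) (t := {t ∈ U δ | ¬ (t ∈ Y ↔ t ∈ g '' (V δ ∩ C δ))}) ?_ ?_
    (hY δ hδ)
  · rintro ξ ⟨hξ, hξ2⟩
    refine ⟨(hC δ hδ).2.2 hξ, fun hcon => hξ2 ?_⟩
    rw [mem_preimage, hcon]
    constructor
    · rintro ⟨ζ, ⟨hζ, hζ2⟩, hζ3⟩
      have := (hC δ hδ).2.1 hζ2 hξ hζ3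
      rwa [← this]
    · intro h1
      exact ⟨ξ, ⟨h1, hξ⟩, rfl⟩
  · exact (hC δ hδ).2.1.mono (fun ξ hξ => hξ.1)

end Pool.Agent.R591.PF
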