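import Mathlib
import Pool.Agent.R591.PF.Lad

set_option autoImplicit false

open Set Ordinal Order Cardinal

namespace Pool.Agent.R591.PF

/-- Inclusion modulo finite sets. -/
def SF {Ω : Type} (A B : Set Ω) : Prop := (A \ B).Finite

variable {Ω : Type}

lemma SF.of_subset {A B : Set Ω} (h : A ⊆ B) : SF A B := by
  show (A \ B).Finite
  rw [Set.sdiff_eq_empty.2 h]; exact finite_empty

lemma SF.refl (A : Set Ω) : SF A A := SF.of_subset Subset.rfl

lemma SF.trans {A B C : Set Ω} (h1 : SF A B) (h2 : SF B C) : SF A C := by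
  refine (h1.union h2).subset ?_
  intro x hx
  by_cases hB : x ∈ B
  · exact Or.inr ⟨hB, hx.2⟩
  · exact Or.inl ⟨hx.1, hB⟩

lemma SF.inter {A B C : Set Ω} (h1 : SF A B) (h2 : SF A C) : SF A (B ∩ C) := by
  refine (h1.union h2).subset ?_
  intro x hx
  by_cases hB : x ∈ B
  · exact Or.inr ⟨hx.1, fun hC => hx.2 ⟨hB, hC⟩⟩
  · exact Or.inl ⟨hx.1, hB⟩

lemma SF.finite {A B : Set Ω} (h1 : SF A B) (h2 : B.Finite) : A.Finite := by
  refine (Set.Finite.union h1 h2).subset ?_
  intro x hx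
  by_cases hB : x ∈ B
  · exact Or.inr hB
  · exact Or.inl ⟨hx, hB⟩

lemma SF.of_finite {A : Set Ω} (B : Set Ω) (h : A.Finite) : SF A B := h.subset sdiff_subset

/-- `r` and `s` are mutually inverse automorphisms of the subsets of `Ω` modulo finite sets. -/
structure Lift (r s : Set Ω → Set Ω) : Prop where
  mono : ∀ A B, SF A B → SF (r A) (r B)
  mono' : ∀ A B, SF A B → SF (s A) (s B)
  rs : ∀ A, SF (r (s A)) A ∧ SF A (r (s A))
  sr : ∀ A, SF (s (r A)) A ∧ SF A (s (r A))

namespace Lift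

variable {r s : Set Ω → Set Ω}

lemma symm (h : Lift r s) : Lift s r := ⟨h.mono', h.mono, h.sr, h.rs⟩

lemma reflect (h : Lift r s) {A B : Set Ω} (hAB : SF (r A) (r B)) : SF A B :=
  (h.sr A).2.trans ((h.mono' _ _ hAB).trans (h.sr B).1)

lemma finite (h : Lift r s) {A : Set Ω} (hA : A.Finite) : (r A).Finite :=
  ((h.mono A (s ∅) (SF.of_finite _ hA)).trans (h.rs ∅).1).finite finite_empty

lemma infinite (h : Lift r s) {A : Set Ω} (hA : A.Infinite) : (r A).Infinite := by
  intro hf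
  exact hA ((h.sr A).2.finite (h.symm.finite hf))

lemma inter_le (h : Lift r s) (A B : Set Ω) : SF (r (A ∩ B)) (r A ∩ r B) :=
  (h.mono _ _ (SF.of_subset inter_subset_left)).inter
    (h.mono _ _ (SF.of_subset inter_subset_right))

lemma le_inter (h : Lift r s) (A B : Set Ω) : SF (r A ∩ r B) (r (A ∩ B)) := by
  have h1 : SF (s (r A ∩ r B)) A :=
    (h.mono' _ _ (SF.of_subset inter_subset_left)).trans (h.sr A).1
  have h2 : SF (s (r A ∩ r B)) B :=
    (h.mono' _ _ (SF.of_subset inter_subset_right)).trans (h.sr B).1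
  exact (h.rs _).2.trans (h.mono _ _ (h1.inter h2))

/-- A family which an automorphism sends to a pairwise disjoint family is uniformizable. -/
lemma unif (h : Lift r s) {ι : Type*} (J : Set ι) (U E : ι → Set Ω)
    (hUE : ∀ i ∈ J, SF (r (U i)) (E i) ∧ SF (E i) (r (U i)))
    (hdisj : ∀ i ∈ J, ∀ j ∈ J, i ≠ j → Disjoint (E i) (E j)) : Unif J U := by
  intro V
  set Y' : Set Ω := ⋃ i ∈ J, (r (V i ∩ U i) ∩ E i) with hY'
  refine ⟨s Y', fun i hi => ?_⟩
  have a1 : SF (r (V i ∩ U i)) (E i) :=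
    (h.mono _ _ (SF.of_subset inter_subset_right)).trans (hUE i hi).1
  have a2 : SF (r (V i ∩ U i)) Y' := by
    refine ((SF.refl _).inter a1).trans (SF.of_subset ?_)
    intro x hx
    simp only [hY', mem_iUnion, exists_prop]
    exact ⟨i, hi, hx⟩
  have a3 : SF (V i ∩ U i) (s Y') := (h.sr _).2.trans (h.mono' _ _ a2)
  have a4 : Y' ∩ E i ⊆ r (V i ∩ U i) := by
    rintro x ⟨hx1, hx2⟩
    simp only [hY', mem_iUnion, exists_prop] at hx1
    obtain ⟨j, hj, hj1, hj2⟩ := hx1
    by_cases hij : i = j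
    · subst hij; exact hj1
    · exact absurd hj2 (fun h2 => (Set.disjoint_left.1 (hdisj i hi j hj hij)) hx2 h2)
  have a5 : SF (s Y' ∩ U i) (V i ∩ U i) := by
    refine h.reflect ?_
    refine (h.inter_le _ _).trans ?_
    refine SF.trans ?_ (SF.of_subset a4)
    exact ((SF.of_subset inter_subset_left).trans (h.rs Y').1).inter
      ((SF.of_subset inter_subset_right).trans (hUE i hi).1)
  refine (Set.Finite.union a3 a5).subset ?_
  rintro t ⟨ht, ht2⟩
  by_cases hV : t ∈ V i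
  · left
    exact ⟨⟨hV, ht⟩, fun hX => ht2 ⟨fun _ => hV, fun _ => hX⟩⟩
  · right
    refine ⟨⟨?_, ht⟩, fun hX => hV hX.1⟩
    by_contra hX
    exact ht2 ⟨fun h1 => (hX h1).elim, fun h1 => (hV h1).elim⟩

end Lift

/-- A family of countable type: if `Ω` carries an automorphism `r` sending some countable set to
an uncountable one, there is a uniformizable ladder system. -/
lemma ladder_of_not_countable {r s : Set Ω → Set Ω} (h : Lift r s)
    {A : Set Ω} (hA : A.Countable) (hB : ¬ (r A).Countable) :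
    ∃ C : Ordinal.{0} → Set Ordinal.{0}, (∀ δ ∈ LimSet, IsLadder (C δ) δ) ∧ Unif LimSet C := by
  have hcard : #((ω₁ : Ordinal.{0}).ToType × ℕ) ≤ #(r A) := by
    have h1 : ℵ₁ ≤ #(r A) := by
      rw [← not_lt, Cardinal.lt_aleph_one_iff, Cardinal.le_aleph0_iff_set_countable]
      exact hB
    refine le_trans ?_ h1
    rw [Cardinal.mk_prod]
    simp
  obtain ⟨j⟩ := hcard
  let E : Ordinal.{0} → Set Ω := fun δ => {x | ∃ (hδ : δ < ω₁) (k : ℕ),
    x = (j (Ordinal.ToType.mk ⟨δ, hδ⟩, k) : Ω)}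
  have hE1 : ∀ δ, E δ ⊆ r A := by
    rintro δ _ ⟨hδ, k, rfl⟩
    exact (j _).2
  have hE2 : ∀ δ ∈ LimSet, (E δ).Infinite := by
    intro δ hδ
    refine Set.infinite_of_injective_forall_mem (f := fun k : ℕ =>
      (j (Ordinal.ToType.mk ⟨δ, hδ.1⟩, k) : Ω)) ?_ (fun k => ⟨hδ.1, k, rfl⟩)
    intro a b hab
    have := j.injective (Subtype.ext hab)
    simpa using this
  have hE3 : ∀ i ∈ LimSet, ∀ k ∈ LimSet, i ≠ k → Disjoint (E i) (E k) := by
    intro i hi k hk hik
    rw [Set.disjoint_left]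
    rintro x ⟨h1, a, rfl⟩ ⟨h2, b, hb⟩
    have := j.injective (Subtype.ext hb)
    simp only [Prod.mk.injEq] at this
    have h3 := Ordinal.ToType.mk.injective this.1
    exact hik (congrArg Subtype.val h3)
  let U' : Ordinal.{0} → Set Ω := fun δ => s (E δ) ∩ A
  have hU'1 : ∀ δ, SF (s (E δ)) (U' δ) := by
    intro δ
    refine (SF.refl _).inter ?_
    exact (h.mono' _ _ (SF.of_subset (hE1 δ))).trans (h.sr A).1
  have hunif' : Unif LimSet U' := by
    refine h.unif LimSet U' E (fun i hi => ⟨?_, ?_⟩) hE3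
    · exact (h.mono _ _ (SF.of_subset inter_subset_left)).trans (h.rs _).1
    · exact (h.rs _).2.trans (h.mono _ _ (hU'1 i))
  let U : Ordinal.{0} → Set A := fun δ => Subtype.val ⁻¹' U' δ
  refine ladder_of_unif (T := A) (fun _ => 0) (fun δ _ => ?_) LimSet Subset.rfl U
    (fun δ hδ => ⟨?_, ?_⟩) ?_
  · have : Countable A := hA.to_subtype
    exact Set.to_countable _
  · intro hf
    have h1 : (U' δ).Finite := by
      refine (hf.image Subtype.val).subset ?_
      intro x hx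
      exact ⟨⟨x, hx.2⟩, hx, rfl⟩
    have h2 : (s (E δ)).Finite := (hU'1 δ).finite h1
    exact h.symm.infinite (hE2 δ hδ) h2
  · intro t _
    exact hδ.2.bot_lt
  · intro V
    obtain ⟨Y, hY⟩ := hunif' (fun δ => Subtype.val '' V δ)
    refine ⟨Subtype.val ⁻¹' Y, fun δ hδ => ?_⟩
    refine Set.Finite.of_injOn (f := Subtype.val) (t := {t ∈ U' δ | ¬ (t ∈ Y ↔ t ∈
      Subtype.val '' V δ)}) ?_ Subtype.val_injective.injOn (hY δ hδ)
    rintro t ⟨ht, ht2⟩
    refine ⟨ht, fun hcon => ht2 ?_⟩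
    rw [mem_preimage, hcon]
    constructor
    · rintro ⟨u, hu, hu2⟩
      rwa [← Subtype.ext hu2]
    · intro h1; exact ⟨t, h1, rfl⟩

end Pool.Agent.R591.PF
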