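import Mathlib
import Pool.Agent.R591.PF.Auto

set_option autoImplicit false

open Set Ordinal Order Cardinal

namespace Pool.Agent.R591.PF

lemma Unif.mono {ι T : Type*} {J J' : Set ι} {U : ι → Set T} (h : Unif J' U) (hJ : J ⊆ J') :
    Unif J U := by
  intro V
  obtain ⟨Y, hY⟩ := h V
  exact ⟨Y, fun i hi => hY i (hJ hi)⟩

variable {Ω : Type}

/-- The initial segments of `Ω` given by a rank function. -/
def Ini (rk : Ω → Ordinal.{0}) (δ : Ordinal.{0}) : Set Ω := {x | rk x < δ}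

lemma one_side {r s : Set Ω → Set Ω} (h : Lift r s) (rk : Ω → Ordinal.{0})
    (b : Ordinal.{0} → Ordinal.{0}) (Cl : Set Ordinal.{0})
    (hb : ∀ δ ∈ Cl, r (Ini rk δ) ⊆ Ini rk (b δ))
    (hCl2 : ∀ δ ∈ Cl, ∀ α < δ, b α ≤ δ) :
    ∃ U : Ordinal.{0} → Set Ω,
      (∀ δ ∈ Cl, (r (Ini rk δ) \ Ini rk δ).Infinite → (U δ).Infinite) ∧
      (∀ δ, U δ ⊆ Ini rk δ) ∧
      Unif {δ ∈ Cl | (r (Ini rk δ) \ Ini rk δ).Infinite} U := by
  let E : Ordinal.{0} → Set Ω := fun δ => r (Ini rk δ) \ Ini rk δ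
  let U : Ordinal.{0} → Set Ω := fun δ => s (E δ) ∩ Ini rk δ
  have h1 : ∀ δ, SF (s (E δ)) (U δ) := fun δ => (SF.refl _).inter
    ((h.mono' _ _ (SF.of_subset sdiff_subset)).trans (h.sr _).1)
  have h2 : ∀ δ, SF (r (U δ)) (E δ) := fun δ =>
    (h.mono _ _ (SF.of_subset inter_subset_left)).trans (h.rs _).1
  have h3 : ∀ δ, SF (E δ) (r (U δ)) := fun δ => (h.rs _).2.trans (h.mono _ _ (h1 δ))
  refine ⟨U, fun δ _ hinf hf => hinf ((h3 δ).finite (h.finite hf)),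
    fun δ => inter_subset_right, ?_⟩
  have key : ∀ i ∈ Cl, ∀ j ∈ Cl, i < j → Disjoint (E i) (E j) := by
    intro i hi j hj hij
    rw [Set.disjoint_left]
    intro x hx1 hx2
    exact hx2.2 ((hb i hi hx1.1 : rk x < b i).trans_le (hCl2 j hj i hij))
  refine h.unif _ U E (fun i _ => ⟨h2 i, h3 i⟩) ?_
  rintro i ⟨hi, _⟩ j ⟨hj, _⟩ hij
  rcases lt_or_gt_of_ne hij with h' | h'
  · exact key i hi j hj h'
  · exact (key j hj i hi h').symm

theorem ladder_of_countable {r s : Set Ω → Set Ω} (h : Lift r s) (rk : Ω → Ordinal.{0})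
    (hrk1 : Function.Injective rk) (hrk2 : ∀ δ < ω₁, ∃ x, rk x = δ) (hrk3 : ∀ x, rk x < ω₁)
    (hbd : ∀ S : Set Ω, S.Countable → ∃ β < ω₁, S ⊆ Ini rk β)
    (hr : ∀ A : Set Ω, A.Countable → (r A).Countable)
    (hs : ∀ A : Set Ω, A.Countable → (s A).Countable)
    (J : Set Ordinal.{0}) (hJ : J ⊆ LimSet)
    (hfix : ∀ δ ∈ J, ¬ (SF (r (Ini rk δ)) (Ini rk δ) ∧ SF (Ini rk δ) (r (Ini rk δ)))) :
    ∃ C : Ordinal.{0} → Set Ordinal.{0}, (∀ δ ∈ J, IsLadder (C δ) δ) ∧ Unif J C := by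
  classical
  have hIni : ∀ δ < ω₁, (Ini rk δ).Countable := by
    intro δ hδ
    refine Set.MapsTo.countable_of_injOn (f := rk) (t := Iio δ) (fun x hx => hx)
      hrk1.injOn (countable_Iio hδ)
  have hb : ∀ α : Ordinal.{0}, ∃ β, α < ω₁ → β < ω₁ ∧ r (Ini rk α) ⊆ Ini rk β ∧
      s (Ini rk α) ⊆ Ini rk β := by
    intro α
    by_cases hα : α < ω₁
    · obtain ⟨β, hβ, hβ2⟩ := hbd (r (Ini rk α) ∪ s (Ini rk α))
        ((hr _ (hIni α hα)).union (hs _ (hIni α hα)))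
      exact ⟨β, fun _ => ⟨hβ, subset_union_left.trans hβ2, subset_union_right.trans hβ2⟩⟩
    · exact ⟨0, fun h => (hα h).elim⟩
  choose b hb using hb
  set Cl : Set Ordinal.{0} := {δ ∈ LimSet | ∀ α < δ, b α ≤ δ} with hCl
  obtain ⟨U₁, hU₁a, hU₁b, hU₁c⟩ := one_side h rk b Cl
    (fun δ hδ => (hb δ hδ.1.1).2.1) (fun δ hδ => hδ.2)
  obtain ⟨U₂, hU₂a, hU₂b, hU₂c⟩ := one_side h.symm rk b Cl
    (fun δ hδ => (hb δ hδ.1.1).2.2) (fun δ hδ => hδ.2)
  -- the non closed limit ordinals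
  have hγ : ∀ δ : Ordinal.{0}, ∃ x : Ω, δ ∈ LimSet \ Cl → rk x < δ ∧ δ < b (rk x) := by
    intro δ
    by_cases hδ : δ ∈ LimSet \ Cl
    · have : ∃ α < δ, δ < b α := by
        by_contra hcon
        push Not at hcon
        exact hδ.2 ⟨hδ.1, hcon⟩
      obtain ⟨α, hα, hα2⟩ := this
      obtain ⟨x, rfl⟩ := hrk2 α (hα.trans hδ.1.1)
      exact ⟨x, fun _ => ⟨hα, hα2⟩⟩
    · obtain ⟨x, -⟩ := hrk2 0 (omega0_pos.trans omega0_lt_omega_one)
      exact ⟨x, fun h => (hδ h).elim⟩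
  choose γ hγ using hγ
  have hn : ∀ x : Ω, ∃ f : Ordinal.{0} → ℕ, InjOn f (Iio (b (rk x))) := by
    intro x
    exact Set.countable_iff_exists_injOn.1 (countable_Iio (hb _ (hrk3 x)).1)
  choose n hn using hn
  let U₃ : Ordinal.{0} → Set (Ω × ℕ) := fun δ =>
    range fun k : ℕ => (γ δ, Nat.pair (n (γ δ) δ) k)
  have hU₃a : ∀ δ, (U₃ δ).Infinite := by
    intro δ
    refine Set.infinite_range_of_injective ?_
    intro k l hkl
    have := congrArg Prod.snd hkl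
    simpa using this
  have hU₃c : Unif (LimSet \ Cl) U₃ := by
    refine unif_of_disjoint _ _ ?_
    intro i hi j hj hij
    rw [Set.disjoint_left]
    rintro _ ⟨k, rfl⟩ ⟨l, hl⟩
    simp only [Prod.mk.injEq, Nat.pair_eq_pair] at hl
    obtain ⟨hl1, hl2, -⟩ := hl
    rw [hl1] at hl2
    refine hij (hn (γ i) (hγ i hi).2 ?_ hl2.symm)
    have := (hγ j hj).2
    rw [hl1] at this
    exact this
  have hsum := unif_sum _ _ U₁ _ hU₁c (unif_sum _ _ U₂ _ hU₂c hU₃c)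
  let hh : Ω ⊕ (Ω ⊕ (Ω × ℕ)) → Ordinal.{0} := Sum.elim rk (Sum.elim rk (fun y => rk y.1))
  refine ladder_of_unif hh ?_ J hJ _ ?_ (hsum.mono ?_)
  · intro δ hδ
    have h1 : {t | hh t < δ} ⊆ Sum.inl '' Ini rk δ ∪
        Sum.inr '' (Sum.inl '' Ini rk δ ∪ Sum.inr '' (Ini rk δ ×ˢ (univ : Set ℕ))) := by
      rintro (x | x | x) hx
      · exact Or.inl ⟨x, hx, rfl⟩
      · exact Or.inr ⟨_, Or.inl ⟨x, hx, rfl⟩, rfl⟩
      · exact Or.inr ⟨_, Or.inr ⟨x, ⟨hx, trivial⟩, rfl⟩, rfl⟩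
    refine Set.Countable.mono h1 ?_
    have h2 := hIni δ hδ
    exact (h2.image _).union (((h2.image _).union ((h2.prod countable_univ).image _)).image _)
  · intro δ hδ
    by_cases h1 : δ ∈ {δ ∈ Cl | (r (Ini rk δ) \ Ini rk δ).Infinite}
    · rw [if_pos h1]
      refine ⟨(hU₁a δ h1.1 h1.2).image Sum.inl_injective.injOn, ?_⟩
      rintro _ ⟨x, hx, rfl⟩
      exact hU₁b δ hx
    · rw [if_neg h1]
      by_cases h2 : δ ∈ {δ ∈ Cl | (s (Ini rk δ) \ Ini rk δ).Infinite}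
      · rw [if_pos h2]
        refine ⟨((hU₂a δ h2.1 h2.2).image Sum.inl_injective.injOn).image
          Sum.inr_injective.injOn, ?_⟩
        rintro _ ⟨_, ⟨x, hx, rfl⟩, rfl⟩
        exact hU₂b δ hx
      · rw [if_neg h2]
        have h3 : δ ∈ LimSet \ Cl := by
          refine ⟨hJ hδ, fun hcl => ?_⟩
          have h4 : (r (Ini rk δ) \ Ini rk δ).Finite := by
            by_contra hcon; exact h1 ⟨hcl, hcon⟩
          have h5 : (s (Ini rk δ) \ Ini rk δ).Finite := by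
            by_contra hcon; exact h2 ⟨hcl, hcon⟩
          exact hfix δ hδ ⟨h4, (h.rs _).2.trans (h.mono _ _ h5)⟩
        refine ⟨((hU₃a δ).image Sum.inr_injective.injOn).image Sum.inr_injective.injOn, ?_⟩
        rintro _ ⟨_, ⟨_, ⟨k, rfl⟩, rfl⟩, rfl⟩
        exact (hγ δ h3).1
  · intro δ hδ
    by_cases h1 : δ ∈ {δ ∈ Cl | (r (Ini rk δ) \ Ini rk δ).Infinite}
    · exact Or.inl h1
    · by_cases h2 : δ ∈ {δ ∈ Cl | (s (Ini rk δ) \ Ini rk δ).Infinite}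
      · exact Or.inr (Or.inl h2)
      · refine Or.inr (Or.inr ⟨hJ hδ, fun hcl => ?_⟩)
        have h4 : (r (Ini rk δ) \ Ini rk δ).Finite := by
          by_contra hcon; exact h1 ⟨hcl, hcon⟩
        have h5 : (s (Ini rk δ) \ Ini rk δ).Finite := by
          by_contra hcon; exact h2 ⟨hcl, hcon⟩
        exact hfix δ hδ ⟨h4, (h.rs _).2.trans (h.mono _ _ h5)⟩

end Pool.Agent.R591.PF
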