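import Mathlib
import Pool.Agent.R591.PF.Club

set_option autoImplicit false

open Set Ordinal Order Cardinal

namespace Pool.Agent.R591.PF

/-- The subsets of `Ω`, preordered by inclusion modulo finite sets. -/
def ModFin (Ω : Type) : Type := Set Ω

instance (Ω : Type) : Preorder (ModFin Ω) where
  le A B := (sdiff (α := Set Ω) A B).Finite
  le_refl A := SF.refl (Ω := Ω) A
  le_trans _ _ _ h1 h2 := SF.trans (Ω := Ω) h1 h2

/-- The Boolean algebra `P(Ω)/Fin`, as a partial order: subsets of `Ω` modulo finite sets,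
ordered by inclusion modulo finite sets. -/
abbrev PFin (Ω : Type) : Type := Antisymmetrization (ModFin Ω) (· ≤ ·)

/-- The class of a subset of `Ω` in `P(Ω)/Fin`. -/
def cls {Ω : Type} (A : Set Ω) : PFin Ω :=
  toAntisymmetrization (α := ModFin Ω) (· ≤ ·) A

lemma cls_le {Ω : Type} {A B : Set Ω} : cls A ≤ cls B ↔ (A \ B).Finite := Iff.rfl

lemma cls_eq {Ω : Type} {A B : Set Ω} : cls A = cls B ↔ (A \ B).Finite ∧ (B \ A).Finite := by
  rw [← cls_le, ← cls_le]
  exact le_antisymm_iff

lemma exists_lift {Ω : Type} (π : PFin Ω ≃o PFin Ω) : ∃ r s : Set Ω → Set Ω, Lift r s ∧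
    (∀ A, cls (r A) = π (cls A)) ∧ (∀ A, cls (s A) = π.symm (cls A)) := by
  let rep : PFin Ω → Set Ω := fun x => ofAntisymmetrization (α := ModFin Ω) (· ≤ ·) x
  have hrep : ∀ x, cls (rep x) = x := fun x =>
    toAntisymmetrization_ofAntisymmetrization (α := ModFin Ω) (· ≤ ·) x
  refine ⟨fun A => rep (π (cls A)), fun A => rep (π.symm (cls A)), ?_, fun A => hrep _,
    fun A => hrep _⟩
  refine ⟨fun A B h => ?_, fun A B h => ?_, fun A => ?_, fun A => ?_⟩
  · show (rep _ \ rep _).Finite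
    rw [← cls_le, hrep, hrep]
    exact π.monotone (cls_le.2 h)
  · show (rep _ \ rep _).Finite
    rw [← cls_le, hrep, hrep]
    exact π.symm.monotone (cls_le.2 h)
  · show (rep _ \ A).Finite ∧ (A \ rep _).Finite
    rw [← cls_eq, hrep, hrep, π.apply_symm_apply]
  · show (rep _ \ A).Finite ∧ (A \ rep _).Finite
    rw [← cls_eq, hrep, hrep, π.symm_apply_apply]

/-- The automorphism `π` of `P(Ω)/Fin` has no nontrivial fixed point. -/
def NoFix {Ω : Type} (π : PFin Ω ≃o PFin Ω) : Prop :=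
  ∀ A : Set Ω, A.Infinite → Aᶜ.Infinite → π (cls A) ≠ cls A

/-- The automorphism `π` of `P(Ω)/Fin` is cardinality-preserving. -/
def CardPres {Ω : Type} (π : PFin Ω ≃o PFin Ω) : Prop :=
  ∀ A B : Set Ω, A.Infinite → B.Infinite → π (cls A) = cls B → #A = #B

end Pool.Agent.R591.PF
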