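import Mathlib
import Pool.Agent.R591.PF.Quo

set_option autoImplicit false

open Set Ordinal Order Cardinal

namespace Pool.Agent.R591.PF

lemma SF.image {Ω Ω' : Type} {A B : Set Ω} (h : SF A B) (f : Ω → Ω') : SF (f '' A) (f '' B) := by
  refine (Set.Finite.image f h).subset ?_
  rintro _ ⟨⟨x, hx, rfl⟩, hx2⟩
  exact ⟨x, ⟨hx, fun hB => hx2 ⟨x, hB, rfl⟩⟩, rfl⟩

lemma SF.preimage {Ω Ω' : Type} {A B : Set Ω'} (h : SF A B) {f : Ω → Ω'}
    (hf : Function.Injective f) : SF (f ⁻¹' A) (f ⁻¹' B) := by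
  have : (f ⁻¹' (A \ B)).Finite := Set.Finite.preimage hf.injOn h
  exact this

/-- Mutually inverse maps modulo finite sets induce an isomorphism. -/
lemma exists_iso {Ω₁ Ω₂ : Type} (R : Set Ω₁ → Set Ω₂) (S : Set Ω₂ → Set Ω₁)
    (hR : ∀ A B, SF A B → SF (R A) (R B)) (hS : ∀ A B, SF A B → SF (S A) (S B))
    (h1 : ∀ A, SF (S (R A)) A ∧ SF A (S (R A))) (h2 : ∀ A, SF (R (S A)) A ∧ SF A (R (S A))) :
    ∃ φ : PFin Ω₁ ≃o PFin Ω₂, ∀ A, φ (cls A) = cls (R A) := by
  let R' : ModFin Ω₁ →o ModFin Ω₂ := ⟨R, fun A B h => hR A B h⟩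
  let S' : ModFin Ω₂ →o ModFin Ω₁ := ⟨S, fun A B h => hS A B h⟩
  let F : PFin Ω₁ →o PFin Ω₂ := R'.antisymmetrization
  let G : PFin Ω₂ →o PFin Ω₁ := S'.antisymmetrization
  have hF : ∀ A : Set Ω₁, F (cls A) = cls (R A) := fun A => rfl
  have hG : ∀ A : Set Ω₂, G (cls A) = cls (S A) := fun A => rfl
  refine ⟨OrderIso.ofHomInv F G ?_ ?_, hF⟩
  · ext x
    induction x using Antisymmetrization.ind with
    | _ A => exact cls_eq.2 (h2 A)
  · ext x
    induction x using Antisymmetrization.ind with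
    | _ A => exact cls_eq.2 (h1 A)

lemma iso_of_lift {Ω Ω₁ Ω₂ : Type} {r s : Set Ω → Set Ω} (h : Lift r s)
    {u : Ω₁ → Ω} (hu : Function.Injective u) {v : Ω₂ → Ω} (hv : Function.Injective v)
    (h1 : SF (r (range u)) (range v)) (h2 : SF (range v) (r (range u))) :
    Nonempty (PFin Ω₁ ≃o PFin Ω₂) := by
  have h3 : SF (s (range v)) (range u) := (h.mono' _ _ h2).trans (h.sr _).1
  refine ⟨(exists_iso (fun X => v ⁻¹' r (u '' X)) (fun Y => u ⁻¹' s (v '' Y))
    (fun A B hAB => (h.mono _ _ (hAB.image u)).preimage hv)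
    (fun A B hAB => (h.mono' _ _ (hAB.image v)).preimage hu)
    ?_ ?_).choose⟩
  · intro A
    have e1 : v '' (v ⁻¹' r (u '' A)) = r (u '' A) ∩ range v := image_preimage_eq_inter_range
    have e2 : u ⁻¹' (u '' A) = A := preimage_image_eq A hu
    have e3 : SF (s (v '' (v ⁻¹' r (u '' A)))) (u '' A) := by
      rw [e1]
      exact (h.mono' _ _ (SF.of_subset inter_subset_left)).trans (h.sr _).1
    have e4 : SF (u '' A) (s (v '' (v ⁻¹' r (u '' A)))) := by
      rw [e1]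
      refine (h.sr _).2.trans (h.mono' _ _ ?_)
      refine (SF.refl _).inter ?_
      exact (h.mono _ _ (SF.of_subset (image_subset_range _ _))).trans h1
    constructor
    · have := e3.preimage hu
      rwa [e2] at this
    · have := e4.preimage hu
      rwa [e2] at this
  · intro A
    have e1 : u '' (u ⁻¹' s (v '' A)) = s (v '' A) ∩ range u := image_preimage_eq_inter_range
    have e2 : v ⁻¹' (v '' A) = A := preimage_image_eq A hv
    have e3 : SF (r (u '' (u ⁻¹' s (v '' A)))) (v '' A) := by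
      rw [e1]
      exact (h.mono _ _ (SF.of_subset inter_subset_left)).trans (h.rs _).1
    have e4 : SF (v '' A) (r (u '' (u ⁻¹' s (v '' A)))) := by
      rw [e1]
      refine (h.rs _).2.trans (h.mono _ _ ?_)
      refine (SF.refl _).inter ?_
      exact (h.mono' _ _ (SF.of_subset (image_subset_range _ _))).trans h3
    constructor
    · have := e3.preimage hv
      rwa [e2] at this
    · have := e4.preimage hv
      rwa [e2] at this

/-- The shift is an automorphism of `P(ℕ)/Fin` without nontrivial fixed points. -/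
lemma exists_shift : ∃ σ : PFin ℕ ≃o PFin ℕ, NoFix σ := by
  obtain ⟨σ, hσ⟩ := exists_iso (Ω₁ := ℕ) (Ω₂ := ℕ) (fun A => Nat.succ '' A)
    (fun A => Nat.succ ⁻¹' A) (fun A B h => h.image _)
    (fun A B h => h.preimage Nat.succ_injective)
    (fun A => by
      rw [preimage_image_eq A Nat.succ_injective]
      exact ⟨SF.refl _, SF.refl _⟩)
    (fun A => by
      rw [image_preimage_eq_inter_range]
      refine ⟨SF.of_subset inter_subset_left, ?_⟩
      refine (SF.refl _).inter ?_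
      refine (Set.finite_singleton 0).subset ?_
      rintro x ⟨_, hx⟩
      rcases x with _ | x
      · rfl
      · exact (hx ⟨x, rfl⟩).elim)
  refine ⟨σ, fun A hA hA2 hfix => ?_⟩
  rw [hσ, cls_eq] at hfix
  obtain ⟨N, hN⟩ := hfix.1.bddAbove
  have h1 : ∀ n, N < n → n ∈ A → n + 1 ∈ A := by
    intro n hn hnA
    by_contra hcon
    have : n + 1 ≤ N := hN ⟨⟨n, hnA, rfl⟩, hcon⟩
    omega
  obtain ⟨n, hn, hnN⟩ := hA.exists_gt N
  have h2 : ∀ k, n + k ∈ A := by
    intro k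
    induction k with
    | zero => exact hn
    | succ k ih => exact h1 (n + k) (by omega) ih
  refine hA2 ((finite_Iio n).subset ?_)
  intro x hx
  by_contra hcon
  simp only [mem_Iio, not_lt] at hcon
  obtain ⟨k, rfl⟩ := Nat.exists_eq_add_of_le hcon
  exact hx (h2 k)

lemma noFix_transfer {Ω₁ Ω₂ : Type} (φ : PFin Ω₁ ≃o PFin Ω₂) {σ : PFin Ω₁ ≃o PFin Ω₁}
    (hσ : NoFix σ) : NoFix (φ.symm.trans (σ.trans φ)) := by
  intro A hA hA2 hfix
  obtain ⟨B, hB⟩ : ∃ B : Set Ω₁, cls B = φ.symm (cls A) := by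
    obtain ⟨B, hB⟩ := Quotient.exists_rep (φ.symm (cls A))
    exact ⟨B, hB⟩
  have hAB : φ (cls B) = cls A := by rw [hB, φ.apply_symm_apply]
  have h1 : σ (cls B) = cls B := by
    have h2 : φ (σ (φ.symm (cls A))) = cls A := hfix
    rw [← hB] at h2
    apply φ.injective
    rw [h2, hAB]
  refine hσ B ?_ ?_ h1
  · intro hBf
    apply hA
    have h3 : cls B ≤ φ.symm (cls ∅) := by
      obtain ⟨D, hD⟩ := Quotient.exists_rep (φ.symm (cls (∅ : Set Ω₂)))
      rw [← hD]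
      exact cls_le.2 (hBf.subset sdiff_subset)
    have h4 : cls A ≤ cls ∅ := by
      rw [← hAB, ← φ.apply_symm_apply (cls (∅ : Set Ω₂))]
      exact φ.monotone h3
    simpa using cls_le.1 h4
  · intro hBf
    apply hA2
    have h3 : φ.symm (cls univ) ≤ cls B := by
      obtain ⟨D, hD⟩ := Quotient.exists_rep (φ.symm (cls (univ : Set Ω₂)))
      rw [← hD]
      exact cls_le.2 (hBf.subset (fun x hx => hx.2))
    have h4 : cls univ ≤ cls A := by
      rw [← hAB, ← φ.apply_symm_apply (cls (univ : Set Ω₂))]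
      exact φ.monotone h3
    have h5 := cls_le.1 h4
    rwa [← compl_eq_univ_sdiff] at h5

theorem nonempty_iso_of_not_cardPres {Ω : Type} (hΩ : #Ω = ℵ₁) {π : PFin Ω ≃o PFin Ω}
    (hc : ¬ CardPres π) : Nonempty (PFin ℕ ≃o PFin Ω) := by
  obtain ⟨r, s, h, hr, hs⟩ := exists_lift π
  simp only [CardPres] at hc
  push Not at hc
  obtain ⟨A, B, hA, hB, hAB, hne⟩ := hc
  have hAB2 : SF (r A) B ∧ SF B (r A) := by
    have := hr A
    rw [hAB] at this
    exact cls_eq.1 this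
  have hsmall : ∀ D : Set Ω, D.Infinite → #D = ℵ₀ ∨ #D = ℵ₁ := by
    intro D hD
    have h1 : ℵ₀ ≤ #D := Cardinal.infinite_iff.1 hD.to_subtype
    have h2 : #D ≤ ℵ₁ := (Cardinal.mk_set_le D).trans hΩ.le
    rcases h1.eq_or_lt with h3 | h3
    · exact Or.inl h3.symm
    · exact Or.inr (le_antisymm h2 (Cardinal.aleph_one_le_iff.2 h3))
  have hemb : ∀ (D : Set Ω) (Ω' : Type), #D = #Ω' → ∃ u : Ω' → Ω, Function.Injective u ∧
      range u = D := by
    intro D Ω' hD
    obtain ⟨e⟩ := Cardinal.eq.1 hD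
    refine ⟨fun x => (e.symm x : Ω), Subtype.val_injective.comp e.symm.injective, ?_⟩
    ext x
    constructor
    · rintro ⟨y, rfl⟩; exact (e.symm y).2
    · intro hx; exact ⟨e ⟨x, hx⟩, by simp⟩
  rcases hsmall A hA with hA1 | hA1 <;> rcases hsmall B hB with hB1 | hB1
  · exact (hne (hA1.trans hB1.symm)).elim
  · obtain ⟨u, hu, hu2⟩ := hemb A ℕ (by rw [hA1]; simp)
    obtain ⟨v, hv, hv2⟩ := hemb B Ω (by rw [hB1, hΩ])
    refine iso_of_lift h hu hv ?_ ?_
    · rw [hu2, hv2]; exact hAB2.1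
    · rw [hu2, hv2]; exact hAB2.2
  · obtain ⟨u, hu, hu2⟩ := hemb B ℕ (by rw [hB1]; simp)
    obtain ⟨v, hv, hv2⟩ := hemb A Ω (by rw [hA1, hΩ])
    refine iso_of_lift h.symm hu hv ?_ ?_
    · rw [hu2, hv2]
      exact (h.mono' _ _ hAB2.2).trans (h.sr _).1
    · rw [hu2, hv2]
      exact (h.sr _).2.trans (h.mono' _ _ hAB2.1)
  · exact (hne (hA1.trans hB1.symm)).elim

theorem katowice_iff (Ω : Type) (hΩ : #Ω = ℵ₁) :
    (∃ π : PFin Ω ≃o PFin Ω, NoFix π) ↔
      Nonempty (PFin ℕ ≃o PFin Ω) ∨ ∃ π : PFin Ω ≃o PFin Ω, NoFix π ∧ CardPres π := by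
  constructor
  · rintro ⟨π, hπ⟩
    by_cases hc : CardPres π
    · exact Or.inr ⟨π, hπ, hc⟩
    left
    exact nonempty_iso_of_not_cardPres hΩ hc
  · rintro (⟨⟨φ⟩⟩ | ⟨π, hπ, -⟩)
    · obtain ⟨σ, hσ⟩ := exists_shift
      exact ⟨_, noFix_transfer φ hσ⟩
    · exact ⟨π, hπ⟩

end Pool.Agent.R591.PF
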