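import Mathlib
import Pool.Agent.R591.PF.Lad

set_option autoImplicit false

open Set Ordinal Order Cardinal

namespace Pool.Agent.R591.PF

/-- `D` is a closed unbounded set of countable limit ordinals. -/
def ClubSet (D : Set Ordinal.{0}) : Prop :=
  D ⊆ LimSet ∧ (∀ β < ω₁, ∃ δ ∈ D, β < δ) ∧
    ∀ δ < ω₁, IsSuccLimit δ → (∀ β < δ, ∃ γ ∈ D, β < γ ∧ γ < δ) → δ ∈ D

lemma clubSet_limSet : ClubSet LimSet := by
  refine ⟨Subset.rfl, fun β hβ => ?_, fun δ h1 h2 _ => ⟨h1, h2⟩⟩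
  refine ⟨β + ω, ⟨?_, isSuccLimit_add β isSuccLimit_omega0⟩, ?_⟩
  · exact isPrincipal_add_omega 1 hβ omega0_lt_omega_one
  · exact lt_add_of_pos_right β omega0_pos

/-- The largest element of a club below a given ordinal. -/
lemma exists_last {D : Set Ordinal.{0}} (hD : ClubSet D) {β δ₀ : Ordinal.{0}} (hβ : β < ω₁)
    (hδ₀ : δ₀ ∈ D) (h0 : δ₀ ≤ β) :
    ∃ δ ∈ D, δ ≤ β ∧ ∀ γ ∈ D, γ ≤ β → γ ≤ δ := by
  classical
  by_contra hcon
  push Not at hcon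
  set S : Set Ordinal.{0} := {γ ∈ D | γ ≤ β} with hS
  have hne : S.Nonempty := ⟨δ₀, hδ₀, h0⟩
  have hbd : BddAbove S := ⟨β, fun γ hγ => hγ.2⟩
  set δ := sSup S with hδ
  have hδβ : δ ≤ β := csSup_le hne (fun γ hγ => hγ.2)
  have hnotmem : δ ∉ S := by
    intro hmem
    obtain ⟨γ, hγ, hγβ, hlt⟩ := hcon δ hmem.1 hmem.2
    exact absurd (le_csSup hbd ⟨hγ, hγβ⟩) (not_le.2 hlt)
  have hcof : ∀ β' < δ, ∃ γ ∈ D, β' < γ ∧ γ < δ := by
    intro β' hβ'
    obtain ⟨γ, hγ, hlt⟩ := exists_lt_of_lt_csSup hne hβ'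
    refine ⟨γ, hγ.1, hlt, lt_of_le_of_ne (le_csSup hbd hγ) ?_⟩
    rintro rfl
    exact hnotmem hγ
  have hlim : IsSuccLimit δ := by
    refine isSuccLimit_iff.2 ⟨?_, ?_⟩
    · intro h
      have h3 : δ₀ ≤ δ := le_csSup hbd ⟨hδ₀, h0⟩
      rw [h] at h3
      exact absurd (hD.1 hδ₀).2.bot_lt (not_lt.2 h3)
    · rw [isSuccPrelimit_iff_succ_lt]
      intro a ha
      obtain ⟨γ, _, h1, h2⟩ := hcof a ha
      exact (succ_le_of_lt h1).trans_lt h2
  exact hnotmem ⟨hD.2.2 δ (hδβ.trans_lt hβ) hlim hcof, hδβ⟩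

theorem two_pow_eq {D : Set Ordinal.{0}} (hD : ClubSet D) {C : Ordinal.{0} → Set Ordinal.{0}}
    (hC : ∀ δ ∈ D, IsLadder (C δ) δ) (hU : Unif D C) :
    (2 : Cardinal.{0}) ^ ℵ₀ = 2 ^ ℵ₁ := by
  classical
  -- the block of an element of the club
  let B : Ordinal.{0} → Set Ordinal.{0} := fun δ => {β | δ ≤ β ∧ ∀ γ ∈ D, γ ≤ β → γ ≤ δ}
  have hB : ∀ δ ∈ D, (B δ).Countable := by
    intro δ hδ
    obtain ⟨γ, hγ, hlt⟩ := hD.2.1 δ (hD.1 hδ).1
    refine (countable_Iio (hD.1 hγ).1).mono ?_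
    intro β hβ
    by_contra hcon
    exact absurd (hβ.2 γ hγ (not_lt.1 hcon)) (not_le.2 hlt)
  have hi : ∀ δ : Ordinal.{0}, ∃ i : Ordinal.{0} → ℕ, δ ∈ D → InjOn i (B δ) := by
    intro δ
    by_cases hδ : δ ∈ D
    · obtain ⟨i, hi⟩ := Set.countable_iff_exists_injOn.1 (hB δ hδ)
      exact ⟨i, fun _ => hi⟩
    · exact ⟨fun _ => 0, fun h => (hδ h).elim⟩
  choose i hi using hi
  -- splitting each ladder into infinitely many infinite pieces
  have hq : ∀ δ : Ordinal.{0}, ∃ q : Ordinal.{0} → ℕ, δ ∈ D →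
      ∀ m, {ξ ∈ C δ | q ξ = m}.Infinite := by
    intro δ
    by_cases hδ : δ ∈ D
    · have hinf : (C δ).Infinite := by
        intro hfin
        have hl := hC δ hδ
        have hne : (C δ).Nonempty := by
          obtain ⟨ξ, hξ, _⟩ := hl.2.1 0 (hD.1 hδ).2.bot_lt
          exact ⟨ξ, hξ⟩
        obtain ⟨ξ, hξ, hmax⟩ := Set.exists_max_image _ id hfin hne
        obtain ⟨ζ, hζ, hlt⟩ := hl.2.1 ξ (hl.1 hξ)
        exact absurd (hmax ζ hζ) (not_le.2 hlt)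
      let a := hinf.natEmbedding
      refine ⟨fun ξ => if h : ∃ k, (a k : Ordinal.{0}) = ξ then (Nat.unpair h.choose).1 else 0,
        fun _ m => ?_⟩
      refine Set.infinite_of_injective_forall_mem (f := fun k => (a (Nat.pair m k) : Ordinal.{0}))
        ?_ (fun k => ⟨(a _).2, ?_⟩)
      · intro k l hkl
        have := a.injective (Subtype.ext hkl)
        simpa using this
      · have hex : ∃ k', (a k' : Ordinal.{0}) = a (Nat.pair m k) := ⟨_, rfl⟩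
        have h1 : hex.choose = Nat.pair m k := a.injective (Subtype.ext hex.choose_spec)
        show (if h : ∃ k', (a k' : Ordinal.{0}) = a (Nat.pair m k) then
          (Nat.unpair h.choose).1 else 0) = m
        rw [dif_pos hex, h1, Nat.unpair_pair]
    · exact ⟨fun _ => 0, fun h => (hδ h).elim⟩
  choose q hq using hq
  -- one coding step
  have hstep : ∀ X : Set Ordinal.{0}, ∃ X' : Set Ordinal.{0}, ∀ δ ∈ D, ∀ β ∈ B δ,
      (β ∈ X ↔ {ξ ∈ C δ | q δ ξ = i δ β ∧ ξ ∈ X'}.Infinite) := by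
    intro X
    obtain ⟨X', hX'⟩ := hU (fun δ => {ξ | ∃ β ∈ B δ, i δ β = q δ ξ ∧ β ∈ X})
    refine ⟨X', fun δ hδ β hβ => ?_⟩
    constructor
    · intro hβX hfin
      refine hq δ hδ (i δ β) ((hfin.union (hX' δ hδ)).subset ?_)
      rintro ξ ⟨hξ, hξ2⟩
      by_cases hξX : ξ ∈ X'
      · exact Or.inl ⟨hξ, hξ2, hξX⟩
      · exact Or.inr ⟨hξ, fun hcon => hξX (hcon.2 ⟨β, hβ, hξ2.symm, hβX⟩)⟩
    · intro hinf
      by_contra hβX
      refine hinf ((hX' δ hδ).subset ?_)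
      rintro ξ ⟨hξ, hξ2, hξX⟩
      refine ⟨hξ, fun hcon => ?_⟩
      obtain ⟨β', hβ', h1, h2⟩ := hcon.1 hξX
      have : β' = β := hi δ hδ hβ' hβ (h1.trans hξ2)
      exact hβX (this ▸ h2)
  choose F hF using hstep
  obtain ⟨δ₀, hδ₀, -⟩ := hD.2.1 0 (omega0_pos.trans omega0_lt_omega_one)
  let seq : Set Ordinal.{0} → ℕ → Set Ordinal.{0} := fun X n => F^[n] X
  have hseq : ∀ X n, seq X (n+1) = F (seq X n) := fun X n => Function.iterate_succ_apply' F n X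
  have key : ∀ X X' : Set Ordinal.{0},
      (∀ n, ∀ β < δ₀, (β ∈ seq X n ↔ β ∈ seq X' n)) →
      ∀ β < ω₁, ∀ n, (β ∈ seq X n ↔ β ∈ seq X' n) := by
    intro X X' h β
    induction β using WellFoundedLT.induction with
    | _ β ih =>
      intro hβ n
      by_cases hβ0 : β < δ₀
      · exact h n β hβ0
      obtain ⟨δ, hδ, hδβ, hmax⟩ := exists_last hD hβ hδ₀ (not_lt.1 hβ0)
      rw [hF (seq X n) δ hδ β ⟨hδβ, hmax⟩, hF (seq X' n) δ hδ β ⟨hδβ, hmax⟩, ← hseq, ← hseq]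
      have : {ξ ∈ C δ | q δ ξ = i δ β ∧ ξ ∈ seq X (n+1)} =
          {ξ ∈ C δ | q δ ξ = i δ β ∧ ξ ∈ seq X' (n+1)} := by
        ext ξ
        simp only [mem_ofPred_eq, and_congr_right_iff]
        intro hξ _
        have h1 : ξ < β := ((hC δ hδ).1 hξ : ξ < δ).trans_le hδβ
        exact ih ξ h1 (h1.trans hβ) (n+1)
      rw [this]
  -- transfer to small types
  have hw : ∀ x : (ω₁ : Ordinal.{0}).ToType, (Ordinal.ToType.mk.symm x).1 < ω₁ :=
    fun x => (Ordinal.ToType.mk.symm x).2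
  have hcδ : Countable (δ₀ : Ordinal.{0}).ToType := by
    rw [← Cardinal.mk_le_aleph0_iff, Cardinal.mk_toType]
    have : δ₀.card < ℵ₁ := by
      rw [← Cardinal.lt_ord]
      simpa using (hD.1 hδ₀).1
    exact Cardinal.lt_aleph_one_iff.1 this
  let G : Set (ω₁ : Ordinal.{0}).ToType → (ℕ → Set (δ₀ : Ordinal.{0}).ToType) := fun A n =>
    {y | (Ordinal.ToType.mk.symm y).1 ∈ seq {β | ∃ x ∈ A, (Ordinal.ToType.mk.symm x).1 = β} n}
  have hG : Function.Injective G := by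
    intro A A' hAA'
    have h1 := key {β | ∃ x ∈ A, (Ordinal.ToType.mk.symm x).1 = β}
      {β | ∃ x ∈ A', (Ordinal.ToType.mk.symm x).1 = β} (fun n β hβ => by
        have h2 := congrFun hAA' n
        have h3 : (Ordinal.ToType.mk ⟨β, hβ⟩ ∈ G A n ↔ Ordinal.ToType.mk ⟨β, hβ⟩ ∈ G A' n) := by
          rw [h2]
        simpa [G] using h3)
    ext x
    have h2 := h1 _ (hw x) 0
    simp only [seq, Function.iterate_zero, id_eq, mem_ofPred_eq] at h2
    constructor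
    · intro hx
      obtain ⟨y, hy, hyx⟩ := h2.1 ⟨x, hx, rfl⟩
      rwa [← Ordinal.ToType.mk.symm.injective (Subtype.ext hyx)]
    · intro hx
      obtain ⟨y, hy, hyx⟩ := h2.2 ⟨x, hx, rfl⟩
      rwa [← Ordinal.ToType.mk.symm.injective (Subtype.ext hyx)]
  refine le_antisymm (Cardinal.power_le_power_left two_ne_zero
    Cardinal.aleph0_lt_aleph_one.le) ?_
  have h1 := Cardinal.mk_le_of_injective hG
  have h2 : #(ℕ → Set (δ₀ : Ordinal.{0}).ToType) ≤ 2 ^ ℵ₀ := by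
    have h3 : #(ℕ → Set (δ₀ : Ordinal.{0}).ToType) = #(Set (δ₀ : Ordinal.{0}).ToType) ^ ℵ₀ := by
      simp
    rw [h3, Cardinal.mk_set, ← Cardinal.power_mul]
    refine Cardinal.power_le_power_left two_ne_zero ?_
    refine (mul_le_mul' (Cardinal.mk_le_aleph0_iff.2 hcδ) le_rfl).trans ?_
    rw [Cardinal.aleph0_mul_aleph0]
  have h4 : #(Set (ω₁ : Ordinal.{0}).ToType) = 2 ^ ℵ₁ := by
    rw [Cardinal.mk_set]; simp
  rw [h4] at h1
  exact h1.trans h2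

end Pool.Agent.R591.PF
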