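import Mathlib
import Pool.Agent.R591.PF.Kat
import Pool.Agent.R591.PF.Pow

set_option autoImplicit false

open Set Ordinal Order Cardinal

namespace Pool.Agent.R591.PF

/-- The initial segment of `Ω` below `δ`, with respect to an enumeration of `Ω` in type `ω₁`. -/
def Seg {Ω : Type} (e : Ω ≃ Set.Iio (ω₁ : Ordinal.{0})) (δ : Ordinal.{0}) : Set Ω :=
  {x | (e x : Ordinal.{0}) < δ}

/-- The countable limit ordinals `δ` whose initial segment is moved by `π`. -/
def Moved {Ω : Type} (e : Ω ≃ Set.Iio (ω₁ : Ordinal.{0})) (π : PFin Ω ≃o PFin Ω) :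
    Set Ordinal.{0} :=
  {δ ∈ LimSet | π (cls (Seg e δ)) ≠ cls (Seg e δ)}

lemma mk_of_equiv {Ω : Type} (e : Ω ≃ Set.Iio (ω₁ : Ordinal.{0})) : #Ω = ℵ₁ := by
  have h1 : Cardinal.lift.{1} #Ω = Cardinal.lift.{0} #(Set.Iio (ω₁ : Ordinal.{0})) :=
    Cardinal.lift_mk_eq'.2 ⟨e⟩
  rw [Cardinal.mk_Iio_ordinal] at h1
  have h2 : (ω₁ : Ordinal.{0}).card = ℵ₁ := by simp
  rw [h2] at h1
  simpa using h1

theorem ladder_moved {Ω : Type} (e : Ω ≃ Set.Iio (ω₁ : Ordinal.{0})) (π : PFin Ω ≃o PFin Ω) :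
    ∃ C : Ordinal.{0} → Set Ordinal.{0},
      (∀ δ ∈ Moved e π, IsLadder (C δ) δ) ∧ Unif (Moved e π) C := by
  obtain ⟨r, s, hrs, hr, hs⟩ := exists_lift π
  have hsub : Moved e π ⊆ LimSet := fun δ hδ => hδ.1
  have hred : (∃ C : Ordinal.{0} → Set Ordinal.{0}, (∀ δ ∈ LimSet, IsLadder (C δ) δ) ∧
      Unif LimSet C) → ∃ C : Ordinal.{0} → Set Ordinal.{0},
      (∀ δ ∈ Moved e π, IsLadder (C δ) δ) ∧ Unif (Moved e π) C := by
    rintro ⟨C, hC, hC2⟩
    exact ⟨C, fun δ hδ => hC δ (hsub hδ), hC2.mono hsub⟩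
  by_cases h1 : ∀ A : Set Ω, A.Countable → (r A).Countable
  swap
  · push Not at h1
    obtain ⟨A, hA, hA2⟩ := h1
    exact hred (ladder_of_not_countable hrs hA hA2)
  by_cases h2 : ∀ A : Set Ω, A.Countable → (s A).Countable
  swap
  · push Not at h2
    obtain ⟨A, hA, hA2⟩ := h2
    exact hred (ladder_of_not_countable hrs.symm hA hA2)
  let rk : Ω → Ordinal.{0} := fun x => (e x).1
  have hrk1 : Function.Injective rk := fun x y hxy => e.injective (Subtype.ext hxy)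
  have hrk2 : ∀ δ < ω₁, ∃ x, rk x = δ := by
    intro δ hδ
    refine ⟨e.symm ⟨δ, hδ⟩, ?_⟩
    simp [rk]
  have hrk3 : ∀ x, rk x < ω₁ := fun x => (e x).2
  refine ladder_of_countable hrs rk hrk1 hrk2 hrk3 ?_ h1 h2 (Moved e π) hsub ?_
  · intro S hS
    have : Countable S := hS.to_subtype
    refine ⟨succ (⨆ x : S, rk x), ?_, ?_⟩
    · refine (isSuccLimit_omega 1).succ_lt ?_
      exact Ordinal.iSup_lt_omega_one (fun x => hrk3 x)
    · intro x hx
      show rk x < _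
      rw [lt_succ_iff]
      exact Ordinal.le_iSup (fun x : S => rk x) ⟨x, hx⟩
  · rintro δ ⟨_, hδ2⟩ ⟨h3, h4⟩
    refine hδ2 ?_
    rw [← hr, cls_eq]
    exact ⟨h3, h4⟩

lemma moved_eq {Ω : Type} (e : Ω ≃ Set.Iio (ω₁ : Ordinal.{0})) {π : PFin Ω ≃o PFin Ω}
    (hπ : NoFix π) : Moved e π = LimSet := by
  refine Subset.antisymm (fun δ hδ => hδ.1) ?_
  rintro δ ⟨hδ1, hδ2⟩
  refine ⟨⟨hδ1, hδ2⟩, hπ _ ?_ ?_⟩
  · have h5 : ∀ n : ℕ, (n : Ordinal.{0}) < δ := by
      intro n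
      have := add_nat_lt hδ2 hδ2.bot_lt n
      simpa using this
    refine Set.infinite_of_injective_forall_mem
      (f := fun n : ℕ => e.symm ⟨(n : Ordinal.{0}), (h5 n).trans hδ1⟩) ?_ (fun n => ?_)
    · intro a b hab
      have h6 : (a : Ordinal.{0}) = (b : Ordinal.{0}) :=
        congrArg Subtype.val (e.symm.injective hab)
      exact_mod_cast h6
    · show ((e _ : Set.Iio (ω₁ : Ordinal.{0})) : Ordinal.{0}) < δ
      rw [Equiv.apply_symm_apply]
      exact h5 n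
  · intro hfin
    have hc : (Seg e δ).Countable :=
      Set.MapsTo.countable_of_injOn (f := fun x => (e x : Ordinal.{0})) (t := Iio δ)
        (fun x hx => hx) (fun x _ y _ hxy => e.injective (Subtype.ext hxy)) (countable_Iio hδ1)
    have hcard : ¬ (univ : Set Ω).Countable := by
      rw [← Cardinal.le_aleph0_iff_set_countable, Cardinal.mk_univ, mk_of_equiv e, not_le]
      exact Cardinal.aleph0_lt_aleph_one
    refine hcard ?_
    rw [← Set.union_compl_self (Seg e δ)]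
    exact hc.union hfin.countable

end Pool.Agent.R591.PF
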