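import Mathlib
import Pool.Agent.R591.PF.Main

set_option autoImplicit false

open Set Ordinal Order Cardinal

namespace Pool.Agent.R591.PF

lemma SF.union {Ω : Type} {A B C D : Set Ω} (h1 : SF A B) (h2 : SF C D) :
    SF (A ∪ C) (B ∪ D) := by
  refine (Set.Finite.union h1 h2).subset ?_
  rintro x ⟨hx | hx, hx2⟩
  · exact Or.inl ⟨hx, fun h => hx2 (Or.inl h)⟩
  · exact Or.inr ⟨hx, fun h => hx2 (Or.inr h)⟩

/-- Lifts of an isomorphism between two algebras `P(Ω₁)/Fin` and `P(Ω₂)/Fin`. -/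
lemma exists_lift₂ {Ω₁ Ω₂ : Type} (φ : PFin Ω₁ ≃o PFin Ω₂) :
    ∃ (R : Set Ω₁ → Set Ω₂) (S : Set Ω₂ → Set Ω₁),
      (∀ A B, SF A B → SF (R A) (R B)) ∧ (∀ A B, SF A B → SF (S A) (S B)) ∧
      (∀ A, SF (S (R A)) A ∧ SF A (S (R A))) ∧ (∀ A, SF (R (S A)) A ∧ SF A (R (S A))) := by
  let rep₁ : PFin Ω₁ → Set Ω₁ := fun x => ofAntisymmetrization (α := ModFin Ω₁) (· ≤ ·) x
  let rep₂ : PFin Ω₂ → Set Ω₂ := fun x => ofAntisymmetrization (α := ModFin Ω₂) (· ≤ ·) x
  have hrep₁ : ∀ x, cls (rep₁ x) = x := fun x =>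
    toAntisymmetrization_ofAntisymmetrization (α := ModFin Ω₁) (· ≤ ·) x
  have hrep₂ : ∀ x, cls (rep₂ x) = x := fun x =>
    toAntisymmetrization_ofAntisymmetrization (α := ModFin Ω₂) (· ≤ ·) x
  refine ⟨fun A => rep₂ (φ (cls A)), fun A => rep₁ (φ.symm (cls A)), fun A B h => ?_,
    fun A B h => ?_, fun A => ?_, fun A => ?_⟩
  · show (rep₂ _ \ rep₂ _).Finite
    rw [← cls_le, hrep₂, hrep₂]
    exact φ.monotone (cls_le.2 h)
  · show (rep₁ _ \ rep₁ _).Finite
    rw [← cls_le, hrep₁, hrep₁]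
    exact φ.symm.monotone (cls_le.2 h)
  · show (rep₁ _ \ A).Finite ∧ (A \ rep₁ _).Finite
    rw [← cls_eq, hrep₁, hrep₂, φ.symm_apply_apply]
  · show (rep₂ _ \ A).Finite ∧ (A \ rep₂ _).Finite
    rw [← cls_eq, hrep₂, hrep₁, φ.apply_symm_apply]

/-- If `P(ℕ)/Fin` and `P(Ω)/Fin` are isomorphic, some automorphism of `P(Ω)/Fin` exchanges a
countable set and its uncountable complement. -/
lemma exists_swap {Ω : Type} (hΩ : #Ω = ℵ₁) (φ : PFin ℕ ≃o PFin Ω) :
    ∃ (π : PFin Ω ≃o PFin Ω) (A : Set Ω), #A = ℵ₀ ∧ #(Aᶜ : Set Ω) = ℵ₁ ∧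
      π (cls A) = cls Aᶜ := by
  obtain ⟨H, H', h1, h2, h3, h4⟩ := exists_lift₂ φ
  have hinf : ℵ₀ ≤ #Ω := by rw [hΩ]; exact Cardinal.aleph0_lt_aleph_one.le
  have : Infinite Ω := Cardinal.infinite_iff.2 hinf
  let u : ℕ ↪ Ω := Infinite.natEmbedding Ω
  set A : Set Ω := range u with hA
  have hA1 : #A = ℵ₀ := by
    rw [hA, Cardinal.mk_range_eq u u.injective]; simp
  have hA2 : #(Aᶜ : Set Ω) = ℵ₁ := by
    have h5 : #A + #(Aᶜ : Set Ω) = ℵ₁ := by rw [Cardinal.mk_sum_compl, hΩ]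
    rw [hA1] at h5
    have h6 : #(Aᶜ : Set Ω) ≤ ℵ₁ := by rw [← h5]; exact self_le_add_left _ _
    refine le_antisymm h6 ?_
    rw [Cardinal.aleph_one_le_iff]
    by_contra hcon
    have h7 : ℵ₀ + #(Aᶜ : Set Ω) ≤ ℵ₀ + ℵ₀ := add_le_add le_rfl (not_lt.1 hcon)
    rw [h5, Cardinal.aleph0_add_aleph0] at h7
    exact absurd Cardinal.aleph0_lt_aleph_one (not_lt.2 h7)
  obtain ⟨e⟩ := Cardinal.eq.1 (hA2.trans hΩ.symm)
  let v : Ω → Ω := fun x => (e.symm x : Ω)
  have hv : Function.Injective v := Subtype.val_injective.comp e.symm.injective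
  have hv2 : range v = Aᶜ := by
    ext x
    constructor
    · rintro ⟨y, rfl⟩; exact (e.symm y).2
    · intro hx; exact ⟨e ⟨x, hx⟩, by simp [v]⟩
  let r : Set Ω → Set Ω := fun X => v '' H (u ⁻¹' X) ∪ u '' H' (v ⁻¹' X)
  have hdis1 : ∀ Z : Set Ω, u ⁻¹' (v '' Z) = ∅ := by
    intro Z
    ext n
    simp only [mem_preimage, mem_image, mem_empty_iff_false, iff_false, not_exists, not_and]
    intro y _ hy
    have : v y ∈ Aᶜ := by rw [← hv2]; exact mem_range_self y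
    exact this (by rw [hy]; exact mem_range_self n)
  have hdis2 : ∀ Z : Set ℕ, v ⁻¹' (u '' Z) = ∅ := by
    intro Z
    ext y
    simp only [mem_preimage, mem_image, mem_empty_iff_false, iff_false, not_exists, not_and]
    intro n _ hn
    have : v y ∈ Aᶜ := by rw [← hv2]; exact mem_range_self y
    exact this (by rw [← hn]; exact mem_range_self n)
  have hru : ∀ X, u ⁻¹' r X = H' (v ⁻¹' X) := by
    intro X
    rw [preimage_union, hdis1, empty_union, preimage_image_eq _ u.injective]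
  have hrv : ∀ X, v ⁻¹' r X = H (u ⁻¹' X) := by
    intro X
    rw [preimage_union, hdis2, union_empty, preimage_image_eq _ hv]
  have hcov : ∀ X : Set Ω, v '' (v ⁻¹' X) ∪ u '' (u ⁻¹' X) = X := by
    intro X
    rw [image_preimage_eq_inter_range, image_preimage_eq_inter_range, hv2, ← hA,
      ← inter_union_distrib_left, compl_union_self, inter_univ]
  have hmono : ∀ X Y, SF X Y → SF (r X) (r Y) := fun X Y h =>
    ((h1 _ _ (h.preimage u.injective)).image v).union ((h2 _ _ (h.preimage hv)).image u)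
  have hrr : ∀ X, SF (r (r X)) X ∧ SF X (r (r X)) := by
    intro X
    have e1 : r (r X) = v '' H (H' (v ⁻¹' X)) ∪ u '' H' (H (u ⁻¹' X)) := by
      show v '' H (u ⁻¹' r X) ∪ u '' H' (v ⁻¹' r X) = _
      rw [hru, hrv]
    have e2 := hcov X
    constructor
    · have := (((h4 (v ⁻¹' X)).1.image v).union ((h3 (u ⁻¹' X)).1.image u))
      rw [e1]
      rwa [e2] at this
    · have := (((h4 (v ⁻¹' X)).2.image v).union ((h3 (u ⁻¹' X)).2.image u))
      rw [e1]
      rwa [e2] at this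
  obtain ⟨π, hπ⟩ := exists_iso r r hmono hmono hrr hrr
  refine ⟨π, A, hA1, hA2, ?_⟩
  rw [hπ, cls_eq]
  have e3 : u ⁻¹' A = (Set.univ : Set ℕ) := by
    rw [hA]; exact preimage_range u
  have e4 : v ⁻¹' A = ∅ := by
    ext y
    simp only [mem_preimage, mem_empty_iff_false, iff_false]
    have : v y ∈ Aᶜ := by rw [← hv2]; exact mem_range_self y
    exact this
  have e5 : r A = v '' H univ ∪ u '' H' ∅ := by
    show v '' H (u ⁻¹' A) ∪ u '' H' (v ⁻¹' A) = _
    rw [e3, e4]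
  have e6 : SF (H' ∅) ∅ := by
    have : SF (H' ∅) (H' (H ∅)) := h2 _ _ (SF.of_subset (empty_subset _))
    exact this.trans (h3 ∅).1
  have e7 : SF univ (H univ) :=
    (h4 univ).2.trans (h1 _ _ (SF.of_subset (subset_univ _)))
  have e8 : v '' univ = Aᶜ := by rw [image_univ, hv2]
  constructor
  · show SF (r A) Aᶜ
    rw [e5]
    have h5 : SF (v '' H univ ∪ u '' H' ∅) (v '' univ ∪ u '' ∅) :=
      ((SF.of_subset (subset_univ _) : SF (H univ) univ).image v).union (e6.image u)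
    rwa [image_empty, union_empty, e8] at h5
  · show SF Aᶜ (r A)
    rw [e5]
    have h5 : SF (v '' univ) (v '' H univ) := e7.image v
    rw [e8] at h5
    exact h5.trans (SF.of_subset subset_union_left)

theorem omega_iff {Ω : Type} (hΩ : #Ω = ℵ₁) :
    Nonempty (PFin ℕ ≃o PFin Ω) ↔ ∃ π : PFin Ω ≃o PFin Ω, ¬ CardPres π := by
  constructor
  · rintro ⟨φ⟩
    obtain ⟨π, A, hA1, hA2, hπ⟩ := exists_swap hΩ φ
    refine ⟨π, fun hc => ?_⟩
    have h1 : A.Infinite := by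
      rw [← Set.infinite_coe_iff, Cardinal.infinite_iff, hA1]
    have h2 : (Aᶜ).Infinite := by
      rw [← Set.infinite_coe_iff, Cardinal.infinite_iff, hA2]
      exact Cardinal.aleph0_lt_aleph_one.le
    have := hc A Aᶜ h1 h2 hπ
    rw [hA1, hA2] at this
    exact absurd this Cardinal.aleph0_lt_aleph_one.ne
  · rintro ⟨π, hπ⟩
    exact nonempty_iso_of_not_cardPres hΩ hπ

end Pool.Agent.R591.PF
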