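import Mathlib
import Pool.Agent.R591.PF.Omega

set_option autoImplicit false

open Set Ordinal Order Cardinal

namespace Pool.Agent.R591.PF

/-- The ladder `C` on a limit ordinal is a finite perturbation of the ladder `D`: its elements are
obtained by adding a positive finite amount to the elements of `D`. -/
def Near (C D : Set Ordinal.{0}) : Prop :=
  (∀ ξ ∈ C, ∃ d ∈ D, d < ξ ∧ ξ < d + ω) ∧ ∀ d ∈ D, ∃ ξ ∈ C, d < ξ ∧ ξ < d + ω

lemma exists_book_nat : ∃ g : Ordinal.{0} → ℕ, ∀ β : Ordinal.{0}, ∀ n : ℕ,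
    ∃ ξ, β < ξ ∧ ξ < β + ω ∧ g ξ = n := by
  have h2 : ∀ ξ : Ordinal.{0}, ∃ m : ℕ, ξ % ω = m := fun ξ =>
    lt_omega0.1 (mod_lt ξ omega0_ne_zero)
  choose m hm using h2
  refine ⟨fun ξ => (Nat.unpair (m ξ)).1, fun β n => ?_⟩
  set η := β / ω with hη
  have h3 : ω * η + (m β : Ordinal) = β := by
    rw [← hm β, hη]; exact div_add_mod _ _
  refine ⟨ω * η + ((Nat.pair n (m β + 1) : ℕ) : Ordinal), ?_, ?_, ?_⟩
  · conv_lhs => rw [← h3]
    refine (add_lt_add_iff_left _).2 ?_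
    exact_mod_cast (Nat.lt_succ_self _).trans_le (Nat.right_le_pair _ _)
  · calc ω * η + ((Nat.pair n (m β + 1) : ℕ) : Ordinal) < ω * η + ω :=
        (add_lt_add_iff_left _).2 (natCast_lt_omega0 _)
      _ ≤ β + ω := add_le_add_left (mul_div_le _ _) ω
  · have h8 : m (ω * η + ((Nat.pair n (m β + 1) : ℕ) : Ordinal)) = Nat.pair n (m β + 1) := by
      have := hm (ω * η + ((Nat.pair n (m β + 1) : ℕ) : Ordinal))
      rw [mul_add_mod_self, mod_eq_of_lt (natCast_lt_omega0 _)] at this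
      exact_mod_cast this.symm
    show (Nat.unpair (m (ω * η + ((Nat.pair n (m β + 1) : ℕ) : Ordinal)))).1 = n
    rw [h8, Nat.unpair_pair]

theorem near_ladder {T : Type} [Countable T] (U : Ordinal.{0} → Set T)
    (hU : ∀ δ ∈ LimSet, (U δ).Infinite) (hunif : Unif LimSet U)
    (D : Ordinal.{0} → Set Ordinal.{0}) (hD : ∀ δ ∈ LimSet, IsLadder (D δ) δ) :
    ∃ C : Ordinal.{0} → Set Ordinal.{0}, (∀ δ ∈ LimSet, IsLadder (C δ) δ ∧ Near (C δ) (D δ)) ∧
      Unif LimSet C := by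
  have hω : ω ∈ LimSet := ⟨omega0_lt_omega_one, isSuccLimit_omega0⟩
  obtain ⟨t0, -⟩ := (hU _ hω).nonempty
  have : Nonempty T := ⟨t0⟩
  obtain ⟨g₀, hg₀⟩ := exists_book_nat
  obtain ⟨en, hen⟩ := exists_surjective_nat T
  set g : Ordinal.{0} → T := fun ξ => en (g₀ ξ) with hgdef
  have hg : ∀ β t, ∃ ξ, β < ξ ∧ ξ < β + ω ∧ g ξ = t := by
    intro β t
    obtain ⟨n, rfl⟩ := hen t
    obtain ⟨ξ, h1, h2, h3⟩ := hg₀ β n
    exact ⟨ξ, h1, h2, by rw [hgdef]; simp only [h3]⟩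
  have key : ∀ δ : Ordinal.{0}, ∃ S : Set Ordinal.{0}, δ ∈ LimSet →
      (IsLadder S δ ∧ Near S (D δ)) ∧ InjOn g S ∧ MapsTo g S (U δ) := by
    intro δ
    by_cases hδ : δ ∈ LimSet
    · have hl := hD δ hδ
      have hDinf : (D δ).Infinite := by
        intro hfin
        have hne : (D δ).Nonempty := by
          obtain ⟨ξ, hξ, _⟩ := hl.2.1 0 hδ.2.bot_lt
          exact ⟨ξ, hξ⟩
        obtain ⟨ξ, hξ, hmax⟩ := Set.exists_max_image _ id hfin hne
        obtain ⟨ζ, hζ, hlt⟩ := hl.2.1 ξ (hl.1 hξ)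
        exact absurd (hmax ζ hζ) (not_le.2 hlt)
      have hDc : (D δ).Countable := (countable_Iio hδ.1).mono hl.1
      have : Infinite (D δ) := hDinf.to_subtype
      have : Countable (D δ) := hDc.to_subtype
      obtain ⟨d⟩ : Nonempty (ℕ ≃ D δ) := by
        obtain ⟨x⟩ := nonempty_denumerable (D δ)
        exact ⟨(Denumerable.eqv (D δ)).symm⟩
      let a := (hU δ hδ).natEmbedding
      choose c hc1 hc2 hc3 using fun k : ℕ => hg (d k : Ordinal.{0}) (a k : T)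
      have hle : ∀ k, (d k : Ordinal.{0}) + ω ≤ δ := by
        intro k
        rw [add_le_iff_of_isSuccLimit isSuccLimit_omega0]
        intro b hb
        obtain ⟨n, rfl⟩ := lt_omega0.1 hb
        exact (add_nat_lt hδ.2 (hl.1 (d k).2) n).le
      refine ⟨range c, fun _ => ⟨⟨⟨?_, ?_, ?_⟩, ⟨?_, ?_⟩⟩, ?_, ?_⟩⟩
      · rintro _ ⟨k, rfl⟩; exact (hc2 k).trans_le (hle k)
      · intro β hβ
        obtain ⟨ξ, hξ, hlt⟩ := hl.2.1 β hβ
        refine ⟨c (d.symm ⟨ξ, hξ⟩), mem_range_self _, ?_⟩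
        have := hc1 (d.symm ⟨ξ, hξ⟩)
        rw [Equiv.apply_symm_apply] at this
        exact hlt.trans this
      · intro β hβ
        have hfin : {k : ℕ | (d k : Ordinal.{0}) < β}.Finite := by
          refine Set.Finite.of_injOn (f := fun k => (d k : Ordinal.{0})) (t := D δ ∩ Iio β)
            (fun k hk => ⟨(d k).2, hk⟩) ?_ (hl.2.2 β hβ)
          intro k _ l _ hkl
          exact d.injective (Subtype.ext hkl)
        refine (hfin.image c).subset ?_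
        rintro _ ⟨⟨j, rfl⟩, hj⟩
        exact ⟨j, (hc1 j).trans hj, rfl⟩
      · rintro _ ⟨k, rfl⟩
        exact ⟨d k, (d k).2, hc1 k, hc2 k⟩
      · intro x hx
        refine ⟨c (d.symm ⟨x, hx⟩), mem_range_self _, ?_, ?_⟩
        · have := hc1 (d.symm ⟨x, hx⟩)
          rwa [Equiv.apply_symm_apply] at this
        · have := hc2 (d.symm ⟨x, hx⟩)
          rwa [Equiv.apply_symm_apply] at this
      · rintro _ ⟨k, rfl⟩ _ ⟨j, rfl⟩ hkj
        rw [hc3, hc3] at hkj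
        have := a.injective (Subtype.ext hkj)
        rw [this]
      · rintro _ ⟨k, rfl⟩
        rw [hc3]
        exact (a k).2
    · exact ⟨∅, fun h => (hδ h).elim⟩
  choose C hC using key
  refine ⟨C, fun δ hδ => (hC δ hδ).1, fun V => ?_⟩
  obtain ⟨Y, hY⟩ := hunif (fun δ => g '' (V δ ∩ C δ))
  refine ⟨g ⁻¹' Y, fun δ hδ => ?_⟩
  refine Set.Finite.of_injOn (f := g) (t := {t ∈ U δ | ¬ (t ∈ Y ↔ t ∈ g '' (V δ ∩ C δ))}) ?_ ?_
    (hY δ hδ)
  · rintro ξ ⟨hξ, hξ2⟩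
    refine ⟨(hC δ hδ).2.2 hξ, fun hcon => hξ2 ?_⟩
    rw [mem_preimage, hcon]
    constructor
    · rintro ⟨ζ, ⟨hζ, hζ2⟩, hζ3⟩
      have := (hC δ hδ).2.1 hζ2 hξ hζ3
      rwa [← this]
    · intro h1
      exact ⟨ξ, ⟨h1, hξ⟩, rfl⟩
  · exact (hC δ hδ).2.1.mono (fun ξ hξ => hξ.1)

/-- A strong Q-sequence indexed by the countable limit ordinals, on a countable set. -/
lemma unif_of_not_countable {Ω : Type} {r s : Set Ω → Set Ω} (h : Lift r s)
    {A : Set Ω} (hB : ¬ (r A).Countable) :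
    ∃ U : Ordinal.{0} → Set A, (∀ δ ∈ LimSet, (U δ).Infinite) ∧ Unif LimSet U := by
  have hcard : #((ω₁ : Ordinal.{0}).ToType × ℕ) ≤ #(r A) := by
    have h1 : ℵ₁ ≤ #(r A) := by
      rw [← not_lt, Cardinal.lt_aleph_one_iff, Cardinal.le_aleph0_iff_set_countable]
      exact hB
    refine le_trans ?_ h1
    rw [Cardinal.mk_prod]
    simp
  obtain ⟨j⟩ := hcard
  let E : Ordinal.{0} → Set Ω := fun δ => {x | ∃ (hδ : δ < ω₁) (k : ℕ),
    x = (j (Ordinal.ToType.mk ⟨δ, hδ⟩, k) : Ω)}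
  have hE1 : ∀ δ, E δ ⊆ r A := by
    rintro δ _ ⟨hδ, k, rfl⟩
    exact (j _).2
  have hE2 : ∀ δ ∈ LimSet, (E δ).Infinite := by
    intro δ hδ
    refine Set.infinite_of_injective_forall_mem (f := fun k : ℕ =>
      (j (Ordinal.ToType.mk ⟨δ, hδ.1⟩, k) : Ω)) ?_ (fun k => ⟨hδ.1, k, rfl⟩)
    intro a b hab
    have := j.injective (Subtype.ext hab)
    simpa using this
  have hE3 : ∀ i ∈ LimSet, ∀ k ∈ LimSet, i ≠ k → Disjoint (E i) (E k) := by
    intro i hi k hk hik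
    rw [Set.disjoint_left]
    rintro x ⟨h1, a, rfl⟩ ⟨h2, b, hb⟩
    have := j.injective (Subtype.ext hb)
    simp only [Prod.mk.injEq] at this
    have h3 := Ordinal.ToType.mk.injective this.1
    exact hik (congrArg Subtype.val h3)
  let U' : Ordinal.{0} → Set Ω := fun δ => s (E δ) ∩ A
  have hU'1 : ∀ δ, SF (s (E δ)) (U' δ) := by
    intro δ
    refine (SF.refl _).inter ?_
    exact (h.mono' _ _ (SF.of_subset (hE1 δ))).trans (h.sr A).1
  have hunif' : Unif LimSet U' := by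
    refine h.unif LimSet U' E (fun i hi => ⟨?_, ?_⟩) hE3
    · exact (h.mono _ _ (SF.of_subset inter_subset_left)).trans (h.rs _).1
    · exact (h.rs _).2.trans (h.mono _ _ (hU'1 i))
  refine ⟨fun δ => Subtype.val ⁻¹' U' δ, fun δ hδ => ?_, ?_⟩
  · intro hf
    have h1 : (U' δ).Finite := by
      refine (hf.image Subtype.val).subset ?_
      intro x hx
      exact ⟨⟨x, hx.2⟩, hx, rfl⟩
    have h2 : (s (E δ)).Finite := (hU'1 δ).finite h1
    exact h.symm.infinite (hE2 δ hδ) h2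
  · intro V
    obtain ⟨Y, hY⟩ := hunif' (fun δ => Subtype.val '' V δ)
    refine ⟨Subtype.val ⁻¹' Y, fun δ hδ => ?_⟩
    refine Set.Finite.of_injOn (f := Subtype.val) (t := {t ∈ U' δ | ¬ (t ∈ Y ↔ t ∈
      Subtype.val '' V δ)}) ?_ Subtype.val_injective.injOn (hY δ hδ)
    rintro t ⟨ht, ht2⟩
    refine ⟨ht, fun hcon => ht2 ?_⟩
    rw [mem_preimage, hcon]
    constructor
    · rintro ⟨u, hu, hu2⟩
      rwa [← Subtype.ext hu2]
    · intro h1; exact ⟨t, h1, rfl⟩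

theorem near_of_omega {Ω : Type} (hΩ : #Ω = ℵ₁) (hφ : Nonempty (PFin ℕ ≃o PFin Ω))
    (D : Ordinal.{0} → Set Ordinal.{0}) (hD : ∀ δ ∈ LimSet, IsLadder (D δ) δ) :
    ∃ C : Ordinal.{0} → Set Ordinal.{0}, (∀ δ ∈ LimSet, IsLadder (C δ) δ ∧ Near (C δ) (D δ)) ∧
      Unif LimSet C := by
  obtain ⟨φ⟩ := hφ
  obtain ⟨π, A, hA1, hA2, hπ⟩ := exists_swap hΩ φ
  obtain ⟨r, s, h, hr, hs⟩ := exists_lift π
  have hB : ¬ (r A).Countable := by
    intro hc
    have h1 : SF Aᶜ (r A) := by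
      have := hr A
      rw [hπ] at this
      exact (cls_eq.1 this).2
    have h2 : (Aᶜ : Set Ω).Countable := by
      refine (hc.union (Set.Finite.countable h1)).mono ?_
      intro x hx
      by_cases hxr : x ∈ r A
      · exact Or.inl hxr
      · exact Or.inr ⟨hx, hxr⟩
    rw [← Cardinal.le_aleph0_iff_set_countable, hA2] at h2
    exact absurd Cardinal.aleph0_lt_aleph_one (not_lt.2 h2)
  obtain ⟨U, hU1, hU2⟩ := unif_of_not_countable h hB
  have : Countable A := by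
    rw [← Cardinal.mk_le_aleph0_iff, hA1]
  exact near_ladder U hU1 hU2 D hD

end Pool.Agent.R591.PF
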